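import Mathlib
import Pool.Agent.W593.IR.All
import Pool.Agent.W205.K5.All
import Pool.Agent.W890.SF.R2

/-!
# The asymptotic Erdős matching conjecture, uniformly in the matching number

The limits of the starting modules are made uniform in `s` and multiplicative.
-/

set_option autoImplicit false

namespace Pool.Agent.Q130.EMC

open Finset Filter Topology Pool.Agent.W890.SF Pool.Agent.W593.IR

/-- binomials: the complement of the star -/
theorem desc_star (n s k : ℕ) (hs : s ≤ n) :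
    (n - s).descFactorial k * n ^ k ≤ (n - s) ^ k * n.descFactorial k := by
  induction k with
  | zero => simp
  | succ k ih =>
    rw [Nat.descFactorial_succ, Nat.descFactorial_succ, pow_succ, pow_succ]
    have h1 : (n - s - k) * n ≤ (n - s) * (n - k) := by
      rcases le_or_gt (n - s) k with h | h
      · rw [Nat.sub_eq_zero_of_le h]
        simp
      · zify [hs, h.le, (by omega : k ≤ n)]
        have : (0 : ℤ) ≤ s * k := by positivity
        nlinarith
    calc (n - s - k) * (n - s).descFactorial k * (n ^ k * n)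
        = ((n - s).descFactorial k * n ^ k) * ((n - s - k) * n) := by ring
      _ ≤ ((n - s) ^ k * n.descFactorial k) * ((n - s) * (n - k)) := Nat.mul_le_mul ih h1
      _ = (n - s) ^ k * (n - s) * ((n - k) * n.descFactorial k) := by ring

/-- the maximum of the two families -/
noncomputable def MX (n k s : ℕ) : ℕ :=
  max (n.choose k - (n - s).choose k) ((k * (s + 1) - 1).choose k)

/-- lower bound of the two families by the limit value -/
theorem mv_le (n k s : ℕ) (hn : 0 < n) (hs : s ≤ n) :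
    mv k ((s : ℝ) / n) * ((n.choose k : ℕ) : ℝ) ≤ (MX n k s : ℝ) := by
  have hn0 : (0 : ℝ) < n := by exact_mod_cast hn
  have hf : (0 : ℝ) < (k.factorial : ℝ) := by exact_mod_cast k.factorial_pos
  have e1 : ((n.choose k : ℕ) : ℝ) = (n.descFactorial k : ℝ) / k.factorial := by
    rw [eq_div_iff hf.ne', Nat.descFactorial_eq_factorial_mul_choose]
    push_cast
    ring
  have hC : (0 : ℝ) ≤ ((n.choose k : ℕ) : ℝ) := Nat.cast_nonneg _
  unfold mv MX
  rw [max_mul_of_nonneg _ _ hC]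
  push_cast
  refine max_le_max ?_ ?_
  · have h2 : ((n - s).choose k : ℝ) ≤ (1 - (s : ℝ) / n) ^ k * ((n.choose k : ℕ) : ℝ) := by
      have e2 : (((n - s).choose k : ℕ) : ℝ) = ((n - s).descFactorial k : ℝ) / k.factorial := by
        rw [eq_div_iff hf.ne', Nat.descFactorial_eq_factorial_mul_choose]
        push_cast
        ring
      rw [e1, e2, ← mul_div_assoc, div_le_div_iff_of_pos_right hf]
      have h3 : (((n - s).descFactorial k : ℕ) : ℝ) * (n : ℝ) ^ k ≤
          ((n : ℝ) - s) ^ k * ((n.descFactorial k : ℕ) : ℝ) := by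
        have := desc_star n s k hs
        have h4 : (((n - s).descFactorial k * n ^ k : ℕ) : ℝ) ≤
          (((n - s) ^ k * n.descFactorial k : ℕ) : ℝ) := by exact_mod_cast this
        push_cast [hs] at h4
        exact h4
      have h5 : (1 - (s : ℝ) / n) ^ k * (n : ℝ) ^ k = ((n : ℝ) - s) ^ k := by
        rw [← mul_pow]
        congr 1
        field_simp
      have h6 : (0 : ℝ) < (n : ℝ) ^ k := by positivity
      rw [← h5] at h3
      have h7 : (((n - s).descFactorial k : ℕ) : ℝ) * (n : ℝ) ^ k ≤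
          ((1 - (s : ℝ) / n) ^ k * ((n.descFactorial k : ℕ) : ℝ)) * (n : ℝ) ^ k := by
        linarith
      exact le_of_mul_le_mul_right h7 h6
    have h8 : (n - s).choose k ≤ n.choose k := Nat.choose_le_choose k (Nat.sub_le _ _)
    rw [Nat.cast_sub h8]
    linarith
  · rcases Nat.eq_zero_or_pos k with rfl | hk
    · simp
    have e3 : (((k * (s + 1) - 1).choose k : ℕ) : ℝ) =
        ((k * (s + 1) - 1).descFactorial k : ℝ) / k.factorial := by
      rw [eq_div_iff hf.ne', Nat.descFactorial_eq_factorial_mul_choose]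
      push_cast
      ring
    rw [e1, e3, ← mul_div_assoc, div_le_div_iff_of_pos_right hf]
    have h1 : (k * s) ^ k ≤ (k * (s + 1) - 1).descFactorial k := by
      have h2 := Nat.pow_sub_le_descFactorial (k * (s + 1) - 1) k
      have h3 : k * (s + 1) - 1 + 1 - k = k * s := by
        have : k * (s + 1) = k * s + k := by ring
        omega
      rwa [h3] at h2
    have h2 : n.descFactorial k ≤ n ^ k := Nat.descFactorial_le_pow n k
    have h1' : ((k : ℝ) * s) ^ k ≤ (((k * (s + 1) - 1).descFactorial k : ℕ) : ℝ) := by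
      exact_mod_cast h1
    have h2' : ((n.descFactorial k : ℕ) : ℝ) ≤ (n : ℝ) ^ k := by exact_mod_cast h2
    have h3 : ((k : ℝ) * (s / n)) ^ k * (n : ℝ) ^ k = ((k : ℝ) * s) ^ k := by
      rw [← mul_pow]
      congr 1
      field_simp
    calc ((k : ℝ) * (s / n)) ^ k * ((n.descFactorial k : ℕ) : ℝ)
        ≤ ((k : ℝ) * (s / n)) ^ k * (n : ℝ) ^ k := by
          apply mul_le_mul_of_nonneg_left h2'
          positivity
      _ = ((k : ℝ) * s) ^ k := h3
      _ ≤ _ := h1'

theorem mm_mono {n k s t : ℕ} (h : s ≤ t) : mm n k s ≤ mm n k t := by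
  obtain ⟨F, hF1, hF2, hF3⟩ := R2.mm_mem n k s
  rw [← hF1]
  exact R2.le_mm F hF2 fun M hM hd => (hF3 M hM hd).trans h

theorem mv_cont (k : ℕ) : Continuous (mv k) := by
  unfold mv
  fun_prop

/-- the uniform form on an interval -/
theorem unif (k : ℕ) {a b : ℝ} (ha : 0 < a) (hab : a ≤ b) (hb1 : b ≤ 1)
    (h : ∀ x : ℝ, a ≤ x → x ≤ b →
      Tendsto (fun n : ℕ => (mm n k ⌊x * (n : ℝ)⌋₊ : ℝ) / ((n.choose k : ℕ) : ℝ)) atTop
        (𝓝 (mv k x))) {δ : ℝ} (hδ : 0 < δ) :
    ∃ n0 : ℕ, ∀ n : ℕ, n0 ≤ n → ∀ s : ℕ, a * n ≤ s → (s : ℝ) ≤ b * n →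
      (mm n k s : ℝ) ≤ (mv k ((s : ℝ) / n) + δ) * ((n.choose k : ℕ) : ℝ) := by
  have huc := isCompact_Icc.uniformContinuousOn_of_continuous
    ((mv_cont k).continuousOn (s := Set.Icc (0 : ℝ) 1))
  rw [Metric.uniformContinuousOn_iff] at huc
  obtain ⟨η, hη, hu⟩ := huc (δ / 2) (by positivity)
  obtain ⟨N, hN⟩ := exists_nat_gt ((b - a) / η)
  have hN0 : (0 : ℝ) < (N : ℝ) + 1 := by positivity
  set g : ℕ → ℝ := fun j => a + (b - a) * j / (N + 1) with hg
  have hga : ∀ j : ℕ, j ≤ N + 1 → a ≤ g j ∧ g j ≤ b := by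
    intro j hj
    have hj' : (j : ℝ) ≤ N + 1 := by exact_mod_cast hj
    have h0 : 0 ≤ b - a := by linarith
    constructor
    · have : 0 ≤ (b - a) * j / (N + 1) := by positivity
      simp only [hg]
      linarith
    · simp only [hg]
      have : (b - a) * j / (N + 1) ≤ b - a := by
        rw [div_le_iff₀ hN0]
        exact mul_le_mul_of_nonneg_left hj' h0
      linarith
  have hev : ∀ j : ℕ, j ≤ N + 1 → ∃ n1 : ℕ, ∀ n : ℕ, n1 ≤ n →
      (mm n k ⌊g j * (n : ℝ)⌋₊ : ℝ) / ((n.choose k : ℕ) : ℝ) ≤ mv k (g j) + δ / 2 := by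
    intro j hj
    have h1 := (tendsto_order.1 (h (g j) (hga j hj).1 (hga j hj).2)).2 (mv k (g j) + δ / 2)
      (by linarith)
    obtain ⟨n1, hn1⟩ := Filter.eventually_atTop.1 h1
    exact ⟨n1, fun n hn => (hn1 n hn).le⟩
  choose! n1 hn1 using hev
  refine ⟨max k (max 1 ((Finset.range (N + 2)).sup n1)), fun n hn s hs1 hs2 => ?_⟩
  have hnk : k ≤ n := le_trans (le_max_left _ _) hn
  have hn1' : 1 ≤ n := le_trans (le_trans (le_max_left _ _) (le_max_right _ _)) hn
  have hnj : ∀ j : ℕ, j ≤ N + 1 → n1 j ≤ n := fun j hj =>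
    le_trans (Finset.le_sup (f := n1) (Finset.mem_range.2 (by omega)))
      (le_trans (le_trans (le_max_right _ _) (le_max_right _ _)) hn)
  have hn0 : (0 : ℝ) < n := by exact_mod_cast hn1'
  have hC : (0 : ℝ) < ((n.choose k : ℕ) : ℝ) := by exact_mod_cast Nat.choose_pos hnk
  set x : ℝ := (s : ℝ) / n with hx
  have hxa : a ≤ x := by rw [hx, le_div_iff₀ hn0]; exact hs1
  have hxb : x ≤ b := by rw [hx, div_le_iff₀ hn0]; exact hs2
  -- the first grid point above `x`
  obtain ⟨j, hj, hxj, hjx⟩ : ∃ j : ℕ, j ≤ N + 1 ∧ x ≤ g j ∧ g j < x + η := by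
    have hex : ∃ j : ℕ, x ≤ g j := by
      refine ⟨N + 1, ?_⟩
      simp only [hg]
      push_cast
      rw [mul_div_assoc, div_self hN0.ne', mul_one]
      linarith
    classical
    have hle : Nat.find hex ≤ N + 1 := Nat.find_min' hex (by
      simp only [hg]
      push_cast
      rw [mul_div_assoc, div_self hN0.ne', mul_one]
      linarith)
    refine ⟨Nat.find hex, hle, Nat.find_spec hex, ?_⟩
    rcases Nat.eq_zero_or_pos (Nat.find hex) with h0 | h0
    · rw [h0]
      simp only [hg]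
      push_cast
      rw [mul_zero, zero_div, add_zero]
      linarith
    · have h1 := Nat.find_min hex (m := Nat.find hex - 1) (by omega)
      push Not at h1
      have h2 : g (Nat.find hex) = g (Nat.find hex - 1) + (b - a) / (N + 1) := by
        simp only [hg]
        have h3 : ((Nat.find hex : ℕ) : ℝ) = ((Nat.find hex - 1 : ℕ) : ℝ) + 1 := by
          rw [Nat.cast_sub h0]
          push_cast
          ring
        rw [h3]
        ring
      have h4 : (b - a) / (N + 1) < η := by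
        rw [div_lt_iff₀ hN0]
        rw [div_lt_iff₀ hη] at hN
        nlinarith
      rw [h2]
      linarith
  have h1 := hn1 j hj n (hnj j hj)
  rw [div_le_iff₀ hC] at h1
  have h2 : s ≤ ⌊g j * (n : ℝ)⌋₊ := by
    apply Nat.le_floor
    have : (s : ℝ) = x * n := by rw [hx]; field_simp
    rw [this]
    exact mul_le_mul_of_nonneg_right hxj hn0.le
  have h3 : (mm n k s : ℝ) ≤ mm n k ⌊g j * (n : ℝ)⌋₊ := by exact_mod_cast mm_mono h2
  have h4 := hu (g j) ⟨by linarith [(hga j hj).1], by linarith [(hga j hj).2]⟩ x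
    ⟨by linarith, by linarith⟩ (by
      rw [Real.dist_eq, abs_of_nonneg (by linarith)]
      linarith)
  rw [Real.dist_eq] at h4
  have h5 := (abs_lt.1 h4).2
  calc (mm n k s : ℝ) ≤ _ := h3
    _ ≤ _ := h1
    _ ≤ _ := by
      apply mul_le_mul_of_nonneg_right _ hC.le
      linarith

/-- multiplicative form on an interval -/
theorem unif_mul (k : ℕ) (hk : 1 ≤ k) {a b : ℝ} (ha : 0 < a) (hab : a ≤ b) (hb1 : b ≤ 1)
    (h : ∀ x : ℝ, a ≤ x → x ≤ b →
      Tendsto (fun n : ℕ => (mm n k ⌊x * (n : ℝ)⌋₊ : ℝ) / ((n.choose k : ℕ) : ℝ)) atTop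
        (𝓝 (mv k x))) {ε : ℝ} (hε : 0 < ε) :
    ∃ n0 : ℕ, ∀ n : ℕ, n0 ≤ n → ∀ s : ℕ, a * n ≤ s → (s : ℝ) ≤ b * n →
      (mm n k s : ℝ) ≤ (1 + ε) * (MX n k s : ℝ) := by
  have hc : 0 < 1 - (1 - a) ^ k := by
    have h1 : (1 - a) ^ k < 1 := pow_lt_one₀ (by linarith) (by linarith) (by omega)
    linarith
  obtain ⟨n0, h0⟩ := unif k ha hab hb1 h (δ := ε * (1 - (1 - a) ^ k)) (by positivity)
  refine ⟨max n0 1, fun n hn s hs1 hs2 => ?_⟩
  have hn1 : 1 ≤ n := le_trans (le_max_right _ _) hn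
  have hn0 : (0 : ℝ) < n := by exact_mod_cast hn1
  have hsn : s ≤ n := by
    have : (s : ℝ) ≤ n := by nlinarith
    exact_mod_cast this
  have h1 := h0 n (le_trans (le_max_left _ _) hn) s hs1 hs2
  have h2 := mv_le n k s (by omega) hsn
  have h3 : 1 - (1 - a) ^ k ≤ mv k ((s : ℝ) / n) := by
    unfold mv
    refine le_trans ?_ (le_max_left _ _)
    have h4 : a ≤ (s : ℝ) / n := by rw [le_div_iff₀ hn0]; exact hs1
    have h5 : (s : ℝ) / n ≤ 1 := by
      rw [div_le_one hn0]
      exact_mod_cast hsn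
    have h6 : (1 - (s : ℝ) / n) ^ k ≤ (1 - a) ^ k :=
      pow_le_pow_left₀ (by linarith) (by linarith) k
    linarith
  have hC : (0 : ℝ) ≤ ((n.choose k : ℕ) : ℝ) := Nat.cast_nonneg _
  calc (mm n k s : ℝ) ≤ _ := h1
    _ ≤ (mv k ((s : ℝ) / n) + ε * mv k ((s : ℝ) / n)) * ((n.choose k : ℕ) : ℝ) := by
      apply mul_le_mul_of_nonneg_right _ hC
      have := mul_le_mul_of_nonneg_left h3 hε.le
      linarith
    _ = (1 + ε) * (mv k ((s : ℝ) / n) * ((n.choose k : ℕ) : ℝ)) := by ring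
    _ ≤ _ := by
      apply mul_le_mul_of_nonneg_left h2
      linarith

/-- the limits -/
theorem lim (k : ℕ) (hk : 2 ≤ k) (x : ℝ) (hx : 0 < x) (hx1 : x ≤ 1 / (k : ℝ))
    (h : k ≤ 5 ∨ (8 * (k : ℝ) + 5) * x ≤ 8 ∨ 5 ≤ (5 * (k : ℝ) + 2) * x) :
    Tendsto (fun n : ℕ => (mm n k ⌊x * (n : ℝ)⌋₊ : ℝ) / ((n.choose k : ℕ) : ℝ)) atTop
      (𝓝 (mv k x)) := by
  apply t_LIMI t_LOW t_LIM k hk x hx
  rcases h with h | h
  · exact Pool.Agent.W205.K5.ub5 k hk h x hx hx1
  · exact Pool.Agent.W593.IR.ub k hk x hx hx1 h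

/-- **Uniform multiplicative form of the asymptotic Erdős matching conjecture.** -/
theorem main (k : ℕ) (hk : 2 ≤ k) {ε : ℝ} (hε : 0 < ε) :
    ∃ n0 : ℕ, ∀ n : ℕ, n0 ≤ n → ∀ s : ℕ, k * s ≤ n →
      (k ≤ 5 ∨ (8 * k + 5) * s ≤ 8 * n ∨ 5 * n ≤ (5 * k + 2) * s) →
      (mm n k s : ℝ) ≤ (1 + ε) * (MX n k s : ℝ) := by
  have hk2 : (2 : ℝ) ≤ k := by exact_mod_cast hk
  have hk0 : (0 : ℝ) < k := by linarith
  obtain ⟨n1, h1⟩ := R2.value t_EMC t_LOW k hk
  set a : ℝ := 40 / (40 * k + 39) with ha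
  have ha0 : 0 < a := by positivity
  have hak : a ≤ 1 / (k : ℝ) := by
    rw [ha, div_le_div_iff₀ (by positivity) hk0]
    linarith
  have hk1 : 1 / (k : ℝ) ≤ 1 := by
    rw [div_le_one hk0]
    linarith
  -- first interval
  obtain ⟨n2, h2⟩ := unif_mul k (by omega) ha0 (b := 8 / (8 * k + 5))
    (by rw [ha, div_le_div_iff₀ (by positivity) (by positivity)]; linarith)
    (by rw [div_le_one (by positivity)]; linarith)
    (fun x hx1 hx2 => lim k hk x (by linarith)
      (hx2.trans (by rw [div_le_div_iff₀ (by positivity) hk0]; linarith))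
      (Or.inr (Or.inl (by
        rw [le_div_iff₀ (by positivity)] at hx2
        linarith)))) hε
  -- second interval
  obtain ⟨n3, h3⟩ := unif_mul k (by omega) (a := 5 / (5 * k + 2)) (by positivity)
    (b := 1 / (k : ℝ))
    (by rw [div_le_div_iff₀ (by positivity) hk0]; linarith) hk1
    (fun x hx1 hx2 => lim k hk x (lt_of_lt_of_le (by positivity) hx1) hx2
      (Or.inr (Or.inr (by
        rw [div_le_iff₀ (by positivity)] at hx1
        linarith)))) hε
  -- small uniformity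
  have h4 : ∃ n4 : ℕ, k ≤ 5 → ∀ n : ℕ, n4 ≤ n → ∀ s : ℕ, a * n ≤ s → (s : ℝ) ≤ 1 / (k : ℝ) * n →
      (mm n k s : ℝ) ≤ (1 + ε) * (MX n k s : ℝ) := by
    by_cases h5 : k ≤ 5
    · obtain ⟨n4, h4⟩ := unif_mul k (by omega) ha0 hak hk1
        (fun x hx1 hx2 => lim k hk x (by linarith) hx2 (Or.inl h5)) hε
      exact ⟨n4, fun _ => h4⟩
    · exact ⟨0, fun h => absurd h h5⟩
  obtain ⟨n4, h4⟩ := h4
  refine ⟨max n1 (max n2 (max n3 n4)), fun n hn s hs h => ?_⟩
  have e1 : n1 ≤ n := le_trans (le_max_left _ _) hn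
  have e2 : n2 ≤ n := le_trans (le_trans (le_max_left _ _) (le_max_right _ _)) hn
  have e3 : n3 ≤ n := le_trans (le_trans (le_trans (le_max_left _ _) (le_max_right _ _))
    (le_max_right _ _)) hn
  have e4 : n4 ≤ n := le_trans (le_trans (le_trans (le_max_right _ _) (le_max_right _ _))
    (le_max_right _ _)) hn
  rcases le_or_gt ((40 * k + 39) * s) (40 * n) with hc | hc
  · obtain ⟨-, h6, -⟩ := h1 n e1 s hc
    have h7 : mm n k s ≤ MX n k s := by
      rw [h6]
      exact le_max_left _ _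
    have h8 : (mm n k s : ℝ) ≤ MX n k s := by exact_mod_cast h7
    have h9 : (0 : ℝ) ≤ (MX n k s : ℝ) := Nat.cast_nonneg _
    nlinarith
  · have hc' : a * n ≤ s := by
      rw [ha, div_mul_eq_mul_div, div_le_iff₀ (by positivity)]
      have : (40 : ℝ) * n < (40 * k + 39) * s := by exact_mod_cast hc
      linarith
    have hs' : (s : ℝ) ≤ 1 / (k : ℝ) * n := by
      rw [one_div_mul_eq_div, le_div_iff₀ hk0]
      have : (k : ℝ) * s ≤ n := by exact_mod_cast hs
      linarith
    rcases h with h | h | h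
    · exact h4 h n e4 s hc' hs'
    · refine h2 n e2 s hc' ?_
      rw [div_mul_eq_mul_div, le_div_iff₀ (by positivity)]
      have : (8 * (k : ℝ) + 5) * s ≤ 8 * n := by exact_mod_cast h
      linarith
    · refine h3 n e3 s ?_ hs'
      rw [div_mul_eq_mul_div, div_le_iff₀ (by positivity)]
      have : 5 * (n : ℝ) ≤ (5 * k + 2) * s := by exact_mod_cast h
      linarith

end Pool.Agent.Q130.EMC
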